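import Pool.Agent.Lib.MP_9cae81_pr.Asymp

section

open Finset Filter
open scoped BigOperators Topology

namespace Pool.Agent.Lib.MP_9cae81_pr

lemma S3_mono {J : ℕ} {A B : ℕ → ℝ} (hA : ∀ i, 0 ≤ A i - A (i + 1))
    (hAB : ∀ i, A i - A (i + 1) ≤ B i - B (i + 1)) : S3 J A ≤ S3 J B := by
  unfold S3
  apply Finset.sum_le_sum
  intro i _
  apply Finset.sum_le_sum
  intro j _
  apply Finset.sum_le_sum
  intro k _
  apply mul_le_mul_of_nonneg_right _ (by positivity)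
  have h1 := hA i
  have h2 := hA j
  have h3 := hA k
  have h4 := hAB i
  have h5 := hAB j
  have h6 := hAB k
  apply mul_le_mul _ h6 h3
  · exact mul_nonneg (h1.trans h4) (h2.trans h5)
  · exact mul_le_mul h4 h5 h2 (h1.trans h4)

lemma S3_smul {J : ℕ} (c : ℝ) (A : ℕ → ℝ) : S3 J (fun s => c * A s) = c ^ 3 * S3 J A := by
  unfold S3
  simp_rw [Finset.mul_sum]
  apply Finset.sum_congr rfl
  intro i _
  apply Finset.sum_congr rfl
  intro j _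
  apply Finset.sum_congr rfl
  intro k _
  ring

/-- the scaled profile -/
noncomputable def GG (J : ℕ) (ρ : ℝ) (s : ℕ) : ℝ := ρ * gT J s

/-- the unary tail built from the profile -/
noncomputable def BB (J : ℕ) (p ρ : ℝ) (s : ℕ) : ℝ :=
  2 * (1 - p) / 3 * GG J ρ s + p * (GG J ρ s) ^ 2

lemma GG_anti {J : ℕ} {ρ : ℝ} (hρ : 0 ≤ ρ) : Antitone (GG J ρ) := fun _ _ h =>
  mul_le_mul_of_nonneg_left (gT_anti J h) hρ

lemma GG_nonneg {J : ℕ} {ρ : ℝ} (hρ : 0 ≤ ρ) (s : ℕ) : 0 ≤ GG J ρ s :=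
  mul_nonneg hρ (gT_nonneg J s)

lemma GG_self (J : ℕ) (ρ : ℝ) : GG J ρ J = 0 := by simp [GG, gT_self]

lemma BB_anti {J : ℕ} {p ρ : ℝ} (h0 : 0 ≤ p) (h1 : p ≤ 1) (hρ : 0 ≤ ρ) :
    Antitone (BB J p ρ) := by
  intro s t hst
  have h2 := GG_anti (J := J) hρ hst
  have h3 : (GG J ρ t) ^ 2 ≤ (GG J ρ s) ^ 2 := pow_le_pow_left₀ (GG_nonneg hρ t) h2 2
  have h4 : 0 ≤ 2 * (1 - p) / 3 := by linarith
  exact add_le_add (mul_le_mul_of_nonneg_left h2 h4) (mul_le_mul_of_nonneg_left h3 h0)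

lemma BB_self (J : ℕ) (p ρ : ℝ) : BB J p ρ J = 0 := by simp [BB, GG_self]

lemma BB_zero {J : ℕ} (hJ : 0 < J) (p ρ : ℝ) :
    BB J p ρ 0 = 2 * (1 - p) / 3 * ρ + p * ρ ^ 2 := by simp [BB, GG, gT_zero hJ]

lemma S2_BB_ge {J : ℕ} {p ρ : ℝ} :
    (2 * (1 - p) / 3) ^ 2 * ρ ^ 2 * (∑ s ∈ range J, (gT J s) ^ 2) +
      2 * (2 * (1 - p) / 3) * p * ρ ^ 3 * (∑ s ∈ range J, (gT J s) ^ 3) ≤ S2 J (BB J p ρ) := by
  rw [S2_eq J _ (BB_self J p ρ), Finset.mul_sum, Finset.mul_sum, ← Finset.sum_add_distrib]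
  apply Finset.sum_le_sum
  intro s _
  unfold BB GG
  have h := sq_nonneg (p * (ρ * gT J s) ^ 2)
  nlinarith

lemma S3_BB_ge {J : ℕ} {p ρ : ℝ} (h0 : 0 ≤ p) (h1 : p ≤ 1) (hρ : 0 ≤ ρ) (hJ : 0 < J) :
    (2 * (1 - p) / 3) ^ 3 * ρ ^ 3 * (2 * (∑ s ∈ range J, (gT J s) ^ 2) - NN J (gT J)) ≤
      S3 J (BB J p ρ) := by
  have h2 := S3_eq J (gT J) (gT_self J)
  rw [gT_zero hJ] at h2
  have h3 : S3 J (fun s => (2 * (1 - p) / 3 * ρ) * gT J s) ≤ S3 J (BB J p ρ) := by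
    apply S3_mono
    · intro i
      have h4 := gT_anti J (Nat.le_succ i)
      simp only [Nat.succ_eq_add_one] at h4
      have h5 : 0 ≤ 2 * (1 - p) / 3 * ρ := mul_nonneg (by linarith) hρ
      have := mul_le_mul_of_nonneg_left h4 h5
      linarith
    · intro i
      have h2 := GG_anti (J := J) hρ (Nat.le_succ i)
      simp only [Nat.succ_eq_add_one] at h2
      have h3 : (GG J ρ (i + 1)) ^ 2 ≤ (GG J ρ i) ^ 2 :=
        pow_le_pow_left₀ (GG_nonneg hρ _) h2 2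
      have h4 := mul_le_mul_of_nonneg_left h3 h0
      unfold BB
      unfold GG at *
      linarith
  rw [S3_smul, h2] at h3
  refine le_trans (le_of_eq ?_) h3
  ring

/-- existence of good parameters -/
lemma exists_params {p : ℝ} (h0 : 0 < p) (h1 : p < 1) (hk : kap < p / (1 - p)) :
    ∃ (J : ℕ) (ρ r : ℝ), 0 < J ∧ 0 < ρ ∧ ρ < 1 ∧ 0 < r ∧ r * (1 - p) < 1 ∧
      0 < Real.exp (-(3 * r * BB J p ρ 0)) * ((3 * r / 2) ^ 2 * S2 J (BB J p ρ) +
        (3 * r / 2) ^ 3 * S3 J (BB J p ρ)) - r * ((1 - p) * ∑ s ∈ range J, (GG J ρ s) ^ 2 +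
          2 * p * ∑ s ∈ range J, (GG J ρ s) ^ 3) := by
  obtain ⟨J, hJ, hJN⟩ := exists_J hk
  set κ' := p / (1 - p) with hκ'
  set I2 := ∑ s ∈ range J, (gT J s) ^ 2 with hI2
  set I3 := ∑ s ∈ range J, (gT J s) ^ 3 with hI3
  set N := NN J (gT J) with hN
  have hI2pos : 0 < I2 := by
    rw [hI2]
    apply Finset.sum_pos'
    · intro i _
      positivity
    · refine ⟨0, mem_range.2 hJ, ?_⟩
      rw [gT_zero hJ]
      norm_num
  set A := 3 * κ' * I3 + (2 * I2 - N) with hA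
  -- small rho
  have hcont1 : Tendsto (fun ρ : ℝ => (κ' * I3 - N) - ρ * (2 * A + 3 * κ' * I2 + 3 * κ' * ρ * A))
      (𝓝[>] 0) (𝓝 ((κ' * I3 - N) - 0 * (2 * A + 3 * κ' * I2 + 3 * κ' * 0 * A))) := by
    apply Tendsto.mono_left _ nhdsWithin_le_nhds
    apply Continuous.tendsto
    fun_prop
  have hcont2 : Tendsto (fun ρ : ℝ => I2 + ρ * A) (𝓝[>] 0) (𝓝 (I2 + 0 * A)) := by
    apply Tendsto.mono_left _ nhdsWithin_le_nhds
    apply Continuous.tendsto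
    fun_prop
  rw [zero_mul, sub_zero] at hcont1
  rw [zero_mul, add_zero] at hcont2
  have he1 := hcont1.eventually (lt_mem_nhds (show 0 < κ' * I3 - N by linarith))
  have he2 := hcont2.eventually (lt_mem_nhds hI2pos)
  have he3 : ∀ᶠ ρ : ℝ in 𝓝[>] 0, ρ < 1 := by
    apply Filter.Eventually.filter_mono nhdsWithin_le_nhds
    exact gt_mem_nhds one_pos
  obtain ⟨ρ, ⟨⟨hρ1, hρ2⟩, hρ3⟩, hρ0⟩ := (((he1.and he2).and he3).and
    self_mem_nhdsWithin).exists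
  -- the limiting inequality at c = 1
  have hF : 0 < Real.exp (-(2 * ρ + 3 * κ' * ρ ^ 2)) * (I2 + ρ * A) - I2 - 2 * κ' * ρ * I3 := by
    have h3 : 1 - (2 * ρ + 3 * κ' * ρ ^ 2) ≤ Real.exp (-(2 * ρ + 3 * κ' * ρ ^ 2)) := by
      have := Real.add_one_le_exp (-(2 * ρ + 3 * κ' * ρ ^ 2))
      linarith
    have h4 := mul_le_mul_of_nonneg_right h3 hρ2.le
    have h5 : (1 - (2 * ρ + 3 * κ' * ρ ^ 2)) * (I2 + ρ * A) - I2 - 2 * κ' * ρ * I3 =
        ρ * ((κ' * I3 - N) - ρ * (2 * A + 3 * κ' * I2 + 3 * κ' * ρ * A)) := by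
      rw [hA]; ring
    have h6 := mul_pos hρ0 hρ1
    linarith
  -- continuity in c
  set f : ℝ → ℝ := fun c => Real.exp (-(2 * c * ρ + 3 * κ' * c * ρ ^ 2)) *
    (c ^ 2 * ρ ^ 2 * I2 + 3 * κ' * c ^ 2 * ρ ^ 3 * I3 + c ^ 3 * ρ ^ 3 * (2 * I2 - N)) -
      c * ρ ^ 2 * I2 - 2 * κ' * c * ρ ^ 3 * I3 with hf
  have hf1 : 0 < f 1 := by
    have h7 : f 1 = ρ ^ 2 * (Real.exp (-(2 * ρ + 3 * κ' * ρ ^ 2)) * (I2 + ρ * A) - I2 -
        2 * κ' * ρ * I3) := by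
      rw [hf]
      simp only [one_pow, mul_one, one_mul]
      rw [hA]
      ring
    rw [h7]
    exact mul_pos (by positivity) hF
  have hfc : Tendsto f (𝓝[<] 1) (𝓝 (f 1)) := by
    apply Tendsto.mono_left _ nhdsWithin_le_nhds
    apply Continuous.tendsto
    rw [hf]
    fun_prop
  have he4 := hfc.eventually (lt_mem_nhds hf1)
  have he5 : ∀ᶠ c : ℝ in 𝓝[<] 1, 0 < c := by
    apply Filter.Eventually.filter_mono nhdsWithin_le_nhds
    exact lt_mem_nhds one_pos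
  obtain ⟨c, ⟨hc1, hc2⟩, hc3⟩ := ((he4.and he5).and self_mem_nhdsWithin).exists
  have hc3 : c < 1 := hc3
  have hq : 0 < 1 - p := by linarith
  refine ⟨J, ρ, c / (1 - p), hJ, hρ0, hρ3, by positivity, ?_, ?_⟩
  · rw [div_mul_cancel₀ _ hq.ne']
    exact hc3
  · have hS2 := S2_BB_ge (J := J) (ρ := ρ) (p := p)
    have hS3 := S3_BB_ge (J := J) (ρ := ρ) h0.le h1.le hρ0.le hJ
    rw [← hI2, ← hI3] at hS2
    rw [← hI2, ← hN] at hS3
    set r := c / (1 - p) with hr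
    have hrpos : 0 < r := by positivity
    have hrc : r * (1 - p) = c := by rw [hr]; field_simp
    have hrp : r * p = κ' * c := by rw [hr, hκ']; field_simp
    have hexp : 3 * r * BB J p ρ 0 = 2 * c * ρ + 3 * κ' * c * ρ ^ 2 := by
      rw [BB_zero hJ]
      calc _ = 2 * (r * (1 - p)) * ρ + 3 * (r * p) * ρ ^ 2 := by ring
        _ = _ := by rw [hrc, hrp]; ring
    have hG2 : ∑ s ∈ range J, (GG J ρ s) ^ 2 = ρ ^ 2 * I2 := by
      rw [hI2, Finset.mul_sum]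
      apply Finset.sum_congr rfl
      intro s _
      unfold GG; ring
    have hG3 : ∑ s ∈ range J, (GG J ρ s) ^ 3 = ρ ^ 3 * I3 := by
      rw [hI3, Finset.mul_sum]
      apply Finset.sum_congr rfl
      intro s _
      unfold GG; ring
    rw [hexp, hG2, hG3]
    have hE := Real.exp_pos (-(2 * c * ρ + 3 * κ' * c * ρ ^ 2))
    have h8 : c ^ 2 * ρ ^ 2 * I2 + 3 * κ' * c ^ 2 * ρ ^ 3 * I3 + c ^ 3 * ρ ^ 3 * (2 * I2 - N) ≤
        (3 * r / 2) ^ 2 * S2 J (BB J p ρ) + (3 * r / 2) ^ 3 * S3 J (BB J p ρ) := by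
      have h9 := mul_le_mul_of_nonneg_left hS2 (by positivity : 0 ≤ (3 * r / 2) ^ 2)
      have h10 := mul_le_mul_of_nonneg_left hS3 (by positivity : 0 ≤ (3 * r / 2) ^ 3)
      have e1 : (3 * r / 2) ^ 2 * ((2 * (1 - p) / 3) ^ 2 * ρ ^ 2 * I2 +
          2 * (2 * (1 - p) / 3) * p * ρ ^ 3 * I3) =
          (r * (1 - p)) ^ 2 * ρ ^ 2 * I2 + 3 * (r * p) * (r * (1 - p)) * ρ ^ 3 * I3 := by ring
      have e2 : (3 * r / 2) ^ 3 * ((2 * (1 - p) / 3) ^ 3 * ρ ^ 3 * (2 * I2 - N)) =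
          (r * (1 - p)) ^ 3 * ρ ^ 3 * (2 * I2 - N) := by ring
      rw [e1, hrc, hrp] at h9
      rw [e2, hrc] at h10
      refine le_trans (le_of_eq ?_) (add_le_add h9 h10)
      ring
    have h11 := mul_le_mul_of_nonneg_left h8 hE.le
    have h12 : r * ((1 - p) * (ρ ^ 2 * I2) + 2 * p * (ρ ^ 3 * I3)) =
        c * ρ ^ 2 * I2 + 2 * κ' * c * ρ ^ 3 * I3 := by
      calc _ = (r * (1 - p)) * ρ ^ 2 * I2 + 2 * (r * p) * ρ ^ 3 * I3 := by ring
        _ = _ := by rw [hrc, hrp]; ring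
    rw [h12]
    have h13 : f c = Real.exp (-(2 * c * ρ + 3 * κ' * c * ρ ^ 2)) *
      (c ^ 2 * ρ ^ 2 * I2 + 3 * κ' * c ^ 2 * ρ ^ 3 * I3 + c ^ 3 * ρ ^ 3 * (2 * I2 - N)) -
      c * ρ ^ 2 * I2 - 2 * κ' * c * ρ ^ 3 * I3 := rfl
    linarith

end Pool.Agent.Lib.MP_9cae81_pr
end

section

open Finset Filter
open scoped BigOperators Topology

namespace Pool.Agent.Lib.MP_9cae81_pr

/-- number of slots -/
noncomputable def MM (r : ℝ) (n : ℕ) : ℕ := ⌊3 * r * (n:ℝ)⌋₊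

lemma tendsto_MM {r : ℝ} (hr : 0 < r) :
    Tendsto (fun n : ℕ => (MM r n : ℝ) / n) atTop (𝓝 (3 * r)) :=
  (tendsto_nat_floor_mul_div_atTop (by positivity : 0 ≤ 3 * r)).comp tendsto_natCast_atTop_atTop

lemma tendsto_MM_atTop {r : ℝ} (hr : 0 < r) : Tendsto (MM r) atTop atTop := by
  have h1 : Tendsto (fun n : ℕ => 3 * r * (n:ℝ)) atTop atTop :=
    Tendsto.const_mul_atTop (by positivity) tendsto_natCast_atTop_atTop
  exact tendsto_nat_floor_atTop.comp h1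

lemma MM_le {r : ℝ} (hr : 0 < r) (n : ℕ) : (MM r n : ℝ) ≤ 3 * r * n :=
  Nat.floor_le (by positivity)

lemma tendsto_pow_MM {r b : ℝ} (hr : 0 < r) :
    Tendsto (fun n : ℕ => (1 - b / n) ^ (MM r n)) atTop (𝓝 (Real.exp (-(3 * r * b)))) := by
  have h1 := Real.tendsto_one_add_div_pow_exp (-b)
  have h2 : Tendsto (fun n : ℕ => ((1 + -b / (n:ℝ)) ^ n) ^ ((MM r n : ℝ) / n)) atTop
      (𝓝 (Real.exp (-b) ^ (3 * r))) := by
    apply Tendsto.rpow h1 (tendsto_MM hr)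
    left
    exact (Real.exp_pos _).ne'
  rw [← Real.exp_mul] at h2
  have h3 : -b * (3 * r) = -(3 * r * b) := by ring
  rw [h3] at h2
  refine h2.congr' ?_
  have h4 : Tendsto (fun n : ℕ => b / (n:ℝ)) atTop (𝓝 0) :=
    tendsto_const_nhds.div_atTop tendsto_natCast_atTop_atTop
  filter_upwards [eventually_gt_atTop 0, h4.eventually (gt_mem_nhds one_pos)] with n hn hb
  have hn' : (0:ℝ) < n := by exact_mod_cast hn
  have h5 : (0:ℝ) < 1 - b / n := by linarith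
  have h6 : 1 + -b / (n:ℝ) = 1 - b / n := by ring
  rw [h6, ← Real.rpow_natCast, ← Real.rpow_mul h5.le, ← Real.rpow_natCast]
  congr 1
  field_simp

lemma choose_two_real (M : ℕ) : (M.choose 2 : ℝ) = M * (M - 1) / 2 := Nat.cast_choose_two ℝ M

lemma choose_three_real (M : ℕ) : (M.choose 3 : ℝ) = M * (M - 1) * (M - 2) / 6 := by
  induction M with
  | zero => simp
  | succ M ih =>
    rw [Nat.choose_succ_succ' M 2]
    push_cast
    rw [ih, choose_two_real]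
    ring

/-- the limit of the lower bound -/
lemma tendsto_lower {r b s2 s3 g J : ℝ} (hr : 0 < r) :
    Tendsto (fun n : ℕ => (1 - b / n) ^ (MM r n) * (((MM r n).choose 2 : ℝ) *
      (2 * s2 / (2 * n) ^ 2) + ((MM r n).choose 3 : ℝ) * (6 * s3 / (2 * n) ^ 3)) -
      (MM r n / n) * (1 / 3 * (g + J / n))) atTop
      (𝓝 (Real.exp (-(3 * r * b)) * ((3 * r / 2) ^ 2 * s2 + (3 * r / 2) ^ 3 * s3) - r * g)) := by
  have hM := tendsto_MM hr
  have hinv : Tendsto (fun n : ℕ => 1 / (n:ℝ)) atTop (𝓝 0) := tendsto_one_div_atTop_nhds_zero_nat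
  have h2 : Tendsto (fun n : ℕ => ((MM r n).choose 2 : ℝ) * (2 * s2 / (2 * n) ^ 2)) atTop
      (𝓝 ((3 * r / 2) ^ 2 * s2)) := by
    have h3 := ((hM.mul (hM.sub hinv)).mul_const (s2 / 4))
    have h4 : 3 * r * (3 * r - 0) * (s2 / 4) = (3 * r / 2) ^ 2 * s2 := by ring
    rw [h4] at h3
    refine h3.congr' ?_
    filter_upwards [eventually_gt_atTop 0] with n hn
    have hn' : (0:ℝ) < n := by exact_mod_cast hn
    rw [choose_two_real]
    field_simp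
    ring
  have h3 : Tendsto (fun n : ℕ => ((MM r n).choose 3 : ℝ) * (6 * s3 / (2 * n) ^ 3)) atTop
      (𝓝 ((3 * r / 2) ^ 3 * s3)) := by
    have h3 := (((hM.mul (hM.sub hinv)).mul (hM.sub (hinv.const_mul 2))).mul_const (s3 / 8))
    have h4 : 3 * r * (3 * r - 0) * (3 * r - 2 * 0) * (s3 / 8) = (3 * r / 2) ^ 3 * s3 := by ring
    rw [h4] at h3
    refine h3.congr' ?_
    filter_upwards [eventually_gt_atTop 0] with n hn
    have hn' : (0:ℝ) < n := by exact_mod_cast hn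
    rw [choose_three_real]
    field_simp
    ring
  have h4 : Tendsto (fun n : ℕ => (MM r n / n : ℝ) * (1 / 3 * (g + J / n))) atTop
      (𝓝 (r * g)) := by
    have h5 : Tendsto (fun n : ℕ => J / (n:ℝ)) atTop (𝓝 0) :=
      tendsto_const_nhds.div_atTop tendsto_natCast_atTop_atTop
    have h6 := hM.mul ((h5.const_add g).const_mul (1 / 3))
    have h7 : 3 * r * (1 / 3 * (g + 0)) = r * g := by ring
    rw [h7] at h6
    exact h6
  exact ((tendsto_pow_MM hr).mul (h2.add h3)).sub h4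

/-- the thinned clause operator -/
noncomputable def TT (n : ℕ) (p : ℝ) (J : ℕ) : Module.End ℝ (((Fin n → Bool) → ℕ) → ℝ) :=
  (2 / 3 : ℝ) • (1 : Module.End ℝ (((Fin n → Bool) → ℕ) → ℝ)) + (1 / 3 : ℝ) • opC n p J

lemma opC_mono {n : ℕ} {p : ℝ} (h0 : 0 ≤ p) (h1 : p ≤ 1) (J : ℕ) : Mono (opC n p J) :=
  mono_avg _ _ (wt_nonneg h0 h1)

lemma opC_one {n : ℕ} (hn : 3 ≤ n) (p : ℝ) (J : ℕ) : opC n p J one' = one' :=
  avg_one _ _ (sum_wt hn p)

lemma TT_mono {n : ℕ} {p : ℝ} (h0 : 0 ≤ p) (h1 : p ≤ 1) (J : ℕ) : Mono (TT n p J) :=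
  (mono_one.smul (by norm_num)).add ((opC_mono h0 h1 J).smul (by norm_num))

lemma TT_one {n : ℕ} (hn : 3 ≤ n) (p : ℝ) (J : ℕ) : TT n p J one' = one' := by
  unfold TT
  rw [LinearMap.add_apply, LinearMap.smul_apply, LinearMap.smul_apply, opC_one hn]
  ext H
  simp only [Module.End.one_apply, Pi.add_apply, Pi.smul_apply, one', smul_eq_mul]
  norm_num

lemma TT_comm (n : ℕ) (p : ℝ) (J : ℕ) (B : ℕ → ℝ) : Commute (TT n p J) (opU n J B) := by
  unfold TT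
  apply Commute.add_left
  · exact (Commute.one_left _).smul_left _
  · exact (avg_comm _ _ _ _).smul_left _

/-- the interpolation bound -/
lemma interp {n J : ℕ} (hn : 3 ≤ n) (hJ : 0 < J) {p ρ : ℝ} (h0 : 0 ≤ p) (h1 : p ≤ 1) (hρ : 0 ≤ ρ)
    (hρ1 : ρ ≤ 1) (M : ℕ) (hM : 3 ≤ M) :
    n * ((1 - BB J p ρ 0 / n) ^ M * ((M.choose 2 : ℝ) * (2 * S2 J (BB J p ρ) / (2 * n) ^ 2) +
      (M.choose 3 : ℝ) * (6 * S3 J (BB J p ρ) / (2 * n) ^ 3))) -
      M * (1 / 3 * (((1 - p) * ∑ s ∈ range J, (GG J ρ s) ^ 2 +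
          2 * p * ∑ s ∈ range J, (GG J ρ s) ^ 3) + J / n)) ≤ (TT n p J ^ M) PsiR 0 := by
  have hB0 : BB J p ρ 0 ≤ 1 := by
    rw [BB_zero hJ]
    have e1 : (2 * (1 - p) / 3) * ρ ≤ (2 * (1 - p) / 3) * 1 :=
      mul_le_mul_of_nonneg_left hρ1 (by linarith)
    have e2 : p * ρ ^ 2 ≤ p * 1 := mul_le_mul_of_nonneg_left (by nlinarith) h0
    linarith
  have hU := opU_pow_ge (n := n) (J := J) (by omega) (BB_anti h0 h1 hρ) hB0 (BB_self J p ρ) M hM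
  rw [Bop_sq, Bop_cube] at hU
  have hkey : ∀ H, opU n J (BB J p ρ) PsiR H - (1 / 3 * (((1 - p) * ∑ s ∈ range J, (GG J ρ s) ^ 2 +
          2 * p * ∑ s ∈ range J, (GG J ρ s) ^ 3) + J / n)) ≤ TT n p J PsiR H :=
    fun H => key_ineq hn h0 h1 (GG_anti hρ) (GG_nonneg hρ) (GG_self J ρ) H
  have hS1 : opU n J (BB J p ρ) one' = one' := avg_one _ _ (sum_wU (by omega) _ (BB_self J p ρ))
  have hSm : Mono (opU n J (BB J p ρ)) := mono_avg _ _ (wU_nonneg (BB_anti h0 h1 hρ) hB0)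
  have := telescope (TT_comm n p J (BB J p ρ)) (TT_mono h0 h1 J) hSm (TT_one hn p J) hS1 PsiR _
    hkey M 0
  linarith

/-- linear growth of the thinned ground-state energy -/
lemma exists_lower {p : ℝ} (h0 : 0 < p) (h1 : p < 1) (hk : kap < p / (1 - p)) :
    ∃ (J : ℕ) (r δ : ℝ), 0 < J ∧ 0 < r ∧ r * (1 - p) < 1 ∧ 0 < δ ∧
      ∀ᶠ n : ℕ in atTop, δ * n ≤ (TT n p J ^ (MM r n)) PsiR 0 := by
  obtain ⟨J, ρ, r, hJ, hρ0, hρ1, hr, hr1, hpos⟩ := exists_params h0 h1 hk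
  set g := (1 - p) * ∑ s ∈ range J, (GG J ρ s) ^ 2 + 2 * p * ∑ s ∈ range J, (GG J ρ s) ^ 3 with hg
  set D := Real.exp (-(3 * r * BB J p ρ 0)) * ((3 * r / 2) ^ 2 * S2 J (BB J p ρ) +
        (3 * r / 2) ^ 3 * S3 J (BB J p ρ)) - r * g with hD
  refine ⟨J, r, D / 2, hJ, hr, hr1, by positivity, ?_⟩
  have hlim := tendsto_lower (r := r) (b := BB J p ρ 0) (s2 := S2 J (BB J p ρ))
    (s3 := S3 J (BB J p ρ)) (g := g) (J := (J:ℝ)) hr
  rw [← hD] at hlim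
  have hev := hlim.eventually (lt_mem_nhds (show D / 2 < D by linarith))
  filter_upwards [hev, eventually_ge_atTop 3, (tendsto_MM_atTop hr).eventually_ge_atTop 3]
    with n hn1 hn3 hM
  have hn' : (0:ℝ) < n := by
    have : 0 < n := by omega
    exact_mod_cast this
  have hint := interp hn3 hJ h0.le h1.le hρ0.le hρ1.le (MM r n) hM
  rw [← hg] at hint
  refine le_trans ?_ hint
  have h2 := mul_le_mul_of_nonneg_right hn1.le hn'.le
  refine le_trans h2 (le_of_eq ?_)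
  field_simp

end Pool.Agent.Lib.MP_9cae81_pr
end
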